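import Pool.Agent.H58.AsgD

set_option autoImplicit false

namespace Pool.Agent.Results.MP_8f84d8_an.NoSemigroup

open MeasureTheory

theorem result :
    ¬ ∃ a : ℂ → Lp ℂ 1 (volume : Measure ℝ),
      DifferentiableOn ℂ a {t : ℂ | 0 < t.re} ∧
      (∀ s t : ℂ, 0 < s.re → 0 < t.re →
        ∀ᵐ x : ℝ, (a (s + t) : ℝ → ℂ) x = ∫ y : ℝ, (a s : ℝ → ℂ) (x - y) * (a t : ℝ → ℂ) y) ∧
      (∃ t : ℂ, 0 < t.re ∧ a t ≠ 0) ∧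
      ∃ C : ℝ, ∀ t : ℂ, 0 < t.re → ‖t‖ ≤ 1 → ‖a t‖ ≤ C := by
  rintro ⟨a, hd, hs, ⟨t, ht, hne⟩, C, hC⟩
  refine hne (Pool.Agent.H58.Asg.main a hd (fun s u h1 h2 => ?_) hC t ht)
  filter_upwards [hs s u h1 h2] with x hx
  rw [hx, convolution_eq_swap]
  rfl

end Pool.Agent.Results.MP_8f84d8_an.NoSemigroup
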